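import Mathlib
import Pool.Agent.R986.AC6

/-!
MP_b733c5 (negative answer): for the nearest neighbour walks on `ℤ^4` with `S = {± e_1, ..., ± e_4}`
the asymptotic capacity of the range is not differentiable, hence not real-analytic, at the simple
random walk.
-/

namespace Pool.Agent.Results.MP_b733c5_pr.CapacityNotAnalytic

open MeasureTheory Filter Topology Pool.Agent.R986.AC

/-- `E[Cap(R_n)]/n` tends to `c` -/
def MeanLimit {d : ℕ} (μ : PMF (V d)) (c : ℝ) : Prop :=
  Tendsto (fun n : ℕ => (∫ ω, cap μ (ran ω n) ∂(law μ)) / n) atTop (𝓝 c)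

/-- `Cap(R_n)/n` tends to `c` almost surely -/
def AsLimit {d : ℕ} (μ : PMF (V d)) (c : ℝ) : Prop :=
  ∀ᵐ ω ∂(law μ), Tendsto (fun n : ℕ => cap μ (ran ω n) / n) atTop (𝓝 c)

/-- in the affine chart of `Delta_S` omitting `s0`, the simple random walk (all weights `1/8`)
belongs to the domain, and the function `c` is neither differentiable there nor real-analytic on
the domain -/
def Singular (c : PMF (V 4) → ℝ) (s0 : V 4) : Prop :=
  (fun _ => 1 / 8) ∈ chart dirs s0 ∧
  ¬ DifferentiableAt ℝ (fun y => c (meas dirs s0 y)) (fun _ => 1 / 8) ∧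
  ¬ AnalyticOnNhd ℝ (fun y => c (meas dirs s0 y)) (chart dirs s0)

lemma chart_open {d : ℕ} (S : Finset (V d)) (s0 : V d) : IsOpen (chart S s0) := by
  have h : chart S s0 = (⋂ t, {y | 0 < y t}) ∩ {y | ∑ t, y t < 1} := by
    ext y
    simp [chart]
  rw [h]
  apply IsOpen.inter
  · exact isOpen_iInter_of_finite fun t => isOpen_lt continuous_const (continuous_apply t)
  · exact isOpen_lt (continuous_finsetSum _ fun t _ => continuous_apply t) continuous_const

theorem result :
    -- (1) the limit in mean exists, for all step distributions on `ℤ^d`, and is `acap μ`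
    (∀ (d : ℕ) (μ : PMF (V d)), MeanLimit μ (acap μ)) ∧
    -- (2) every almost sure limit of `Cap(R_n)/n` equals `acap μ`
    (∀ (d : ℕ) (μ : PMF (V d)) (c : ℝ), AsLimit μ c → c = acap μ) ∧
    -- (3) in all affine charts of `Delta_S`, `S = {± e_1, ..., ± e_4}`, the asymptotic capacity is
    -- not differentiable at the simple random walk, hence not real-analytic on `Delta_S`
    (∀ s0 ∈ dirs, Singular acap s0) ∧
    -- (4) the same for every function `c` giving the almost sure limits on `Delta_S`
    (∀ s0 ∈ dirs, ∀ c : PMF (V 4) → ℝ,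
      (∀ y ∈ chart dirs s0, AsLimit (meas dirs s0 y) (c (meas dirs s0 y))) → Singular c s0) ∧
    -- (5) quantitatively: zero at the simple random walk, at least linear in the drift
    (∀ s0 ∈ dirs, acap (meas dirs s0 (fun _ => 1 / 8)) = 0 ∧
      ∀ r : ℝ, 0 < r → r < 1 → r / 2448 ≤ acap (meas dirs s0 (yr s0 r))) := by
  refine ⟨fun d μ => acap_mean μ, fun d μ c hc => acap_ae μ c hc, ?_, ?_, ?_⟩
  · intro s0 hs0
    refine ⟨center_mem s0 hs0, not_diff s0 hs0, ?_⟩
    intro h
    exact not_diff s0 hs0 (h _ (center_mem s0 hs0)).differentiableAt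
  · intro s0 hs0 c hc
    have heq : (fun y => c (meas dirs s0 y)) =ᶠ[𝓝 (fun _ => 1 / 8)]
        fun y => acap (meas dirs s0 y) := by
      filter_upwards [(chart_open dirs s0).mem_nhds (center_mem s0 hs0)] with y hy
      exact acap_ae _ _ (hc y hy)
    have h1 : ¬ DifferentiableAt ℝ (fun y => c (meas dirs s0 y)) (fun _ => 1 / 8) := by
      intro h
      exact not_diff s0 hs0 (heq.differentiableAt_iff.mp h)
    exact ⟨center_mem s0 hs0, h1, fun h => h1 (h _ (center_mem s0 hs0)).differentiableAt⟩
  · intro s0 hs0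
    refine ⟨?_, fun r hr0 hr1 => acap_lower (isW_yr s0 hs0 (by linarith) hr1) hr0 hr1.le⟩
    rw [← yr_zero]
    exact acap_zero (isW_yr s0 hs0 (by norm_num) (by norm_num))

end Pool.Agent.Results.MP_b733c5_pr.CapacityNotAnalytic
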